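import Mathlib

open FirstOrder FirstOrder.Language

namespace Pool.Agent.Results.MP_9f131e_lc.NotConjugate

/-! ### General notions -/

section Defs

variable (L : FirstOrder.Language.{0, 0})

/-- `M` lies in the variety defined by the set `Θ` of identities (pairs of terms in variables
indexed by `ℕ`). -/
def InVariety (Θ : Set (L.Term ℕ × L.Term ℕ)) (M : Type) [L.Structure M] : Prop :=
  ∀ e ∈ Θ, ∀ v : ℕ → M, e.1.realize v = e.2.realize v

/-- `H` is a finitely generated free algebra of the variety defined by `Θ`: it lies in the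
variety and has a finite family `b` of elements such that every map of this family to an algebra
`B` of the variety extends to a unique homomorphism. -/
def IsFGFree (Θ : Set (L.Term ℕ × L.Term ℕ)) (H : Type) [L.Structure H] : Prop :=
  InVariety L Θ H ∧ ∃ (k : ℕ) (b : Fin k → H), ∀ (B : Type) [L.Structure B],
    InVariety L Θ B → ∀ c : Fin k → B, ∃! g : H →[L] B, ∀ i, g (b i) = c i

/-- The tuples `μ` and `ν` satisfy the same first-order formulas. -/
def SameType {H₁ H₂ : Type} [L.Structure H₁] [L.Structure H₂] {n : ℕ}
    (μ : Fin n → H₁) (ν : Fin n → H₂) : Prop :=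
  ∀ φ : L.Formula (Fin n), φ.Realize μ ↔ φ.Realize ν

/-- Isotypic algebras: every type of a finite tuple realised in one of them is realised in the
other one. -/
def Isotypic (H₁ H₂ : Type) [L.Structure H₁] [L.Structure H₂] : Prop :=
  ∀ n : ℕ, (∀ μ : Fin n → H₁, ∃ ν : Fin n → H₂, SameType L μ ν) ∧
    (∀ ν : Fin n → H₂, ∃ μ : Fin n → H₁, SameType L μ ν)

end Defs

/-! ### The algebra -/

/-- the function symbols `0, -, ε, t_i, +` -/
inductive Fn : ℕ → Type
  | zero : Fn 0
  | neg : Fn 1
  | eps : Fn 1
  | t : ℕ → Fn 1
  | add : Fn 2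

/-- the signature -/
def LL : FirstOrder.Language.{0, 0} := ⟨Fn, fun _ => Empty⟩

/-- the ring `ℤ[ε]/(5ε, ε²)` as an additive group; `(a, b)` stands for `a + b ε` -/
abbrev A : Type := ℤ × ZMod 5

/-- multiplication by `ε` -/
def epsA (p : A) : A := (0, (p.1 : ZMod 5))

/-- multiplication of `ℤ[ε]/(5ε, ε²)` -/
def mulA (p q : A) : A := (p.1 * q.1, (p.1 : ZMod 5) * q.2 + (q.1 : ZMod 5) * p.2)

/-- the Cantor space -/
abbrev X : Type := ℕ → Bool

/-- the functions obtained from the constant function `1` by the operations -/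
inductive Gen : (X → A) → Prop
  | one : Gen (fun _ => (1, 0))
  | zero : Gen (fun _ => 0)
  | neg {f : X → A} : Gen f → Gen (fun x => -f x)
  | add {f g : X → A} : Gen f → Gen g → Gen (fun x => f x + g x)
  | eps {f : X → A} : Gen f → Gen (fun x => epsA (f x))
  | t (i : ℕ) {f : X → A} : Gen f → Gen (fun x => if x i = true then f x else 0)

/-- the algebra `H` -/
def H : Type := {f : X → A // Gen f}

/-- the operations -/
def op : {n : ℕ} → Fn n → (Fin n → H) → H
  | _, .zero, _ => ⟨_, Gen.zero⟩
  | _, .neg, v => ⟨_, (v 0).2.neg⟩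
  | _, .eps, v => ⟨_, (v 0).2.eps⟩
  | _, .t i, v => ⟨_, Gen.t i (v 0).2⟩
  | _, .add, v => ⟨_, (v 0).2.add (v 1).2⟩

instance : LL.Structure H where
  funMap := fun F v => op F v
  RelMap := fun r _ => nomatch r

/-- the generator -/
def one : H := ⟨_, Gen.one⟩

lemma gen_mul {f h : X → A} (hf : Gen f) (hh : Gen h) : Gen (fun x => mulA (f x) (h x)) := by
  induction hf with
  | one =>
    have : (fun x => mulA (1, 0) (h x)) = h := by
      funext x; simp [mulA]
    rw [this]; exact hh
  | zero =>
    have : (fun x => mulA 0 (h x)) = fun _ => (0 : A) := by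
      funext x; simp [mulA]
    rw [this]; exact Gen.zero
  | @neg f _ ih =>
    have : (fun x => mulA (-f x) (h x)) = fun x => -mulA (f x) (h x) := by
      funext x; ext
      · simp [mulA]
      · simp [mulA]; ring
    rw [this]; exact ih.neg
  | @add f g _ _ ih1 ih2 =>
    have : (fun x => mulA (f x + g x) (h x)) = fun x => mulA (f x) (h x) + mulA (g x) (h x) := by
      funext x; ext
      · simp [mulA]; ring
      · simp [mulA]; ring
    rw [this]; exact ih1.add ih2
  | @eps f _ ih =>
    have : (fun x => mulA (epsA (f x)) (h x)) = fun x => epsA (mulA (f x) (h x)) := by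
      funext x; ext
      · simp [mulA, epsA]
      · simp [mulA, epsA]; ring
    rw [this]; exact ih.eps
  | @t i f _ ih =>
    have : (fun x => mulA (if x i = true then f x else 0) (h x)) =
        fun x => if x i = true then mulA (f x) (h x) else 0 := by
      funext x
      split
      · rfl
      · simp [mulA]
    rw [this]; exact ih.t i

/-- multiplication on `H` -/
def mulH (f h : H) : H := ⟨fun x => mulA (f.1 x) (h.1 x), gen_mul f.2 h.2⟩

lemma op_mul {n : ℕ} (F : Fn n) (v : Fin n → H) (h : H) :
    op F (fun i => mulH (v i) h) = mulH (op F v) h := by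
  cases F with
  | zero =>
    apply Subtype.ext; funext x
    simp [op, mulH, mulA]
    rfl
  | neg =>
    apply Subtype.ext; funext x; ext
    · simp [op, mulH, mulA]
    · simp [op, mulH, mulA]; ring
  | eps =>
    apply Subtype.ext; funext x; ext
    · simp [op, mulH, mulA, epsA]
    · simp [op, mulH, mulA, epsA]; ring
  | t i =>
    apply Subtype.ext; funext x
    simp only [op, mulH]
    split
    · rfl
    · simp [mulA]; rfl
  | add =>
    apply Subtype.ext; funext x; ext
    · simp [op, mulH, mulA]; ring
    · simp [op, mulH, mulA]; ring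

lemma mul_one' (h : H) : mulH one h = h := by
  apply Subtype.ext; funext x
  simp [mulH, one, mulA]

lemma realize_mul {α : Type} (p : LL.Term α) (v : α → H) (h : H) :
    p.realize (fun a => mulH (v a) h) = mulH (p.realize v) h := by
  induction p with
  | var a => rfl
  | func F ts ih =>
    show op F (fun i => (ts i).realize (fun a => mulH (v a) h)) =
      mulH (op F (fun i => (ts i).realize v)) h
    simp only [ih]
    exact op_mul F _ h

/-- every element is the value of a term at the generator -/
lemma exists_term (f : H) : ∃ p : LL.Term (Fin 1), p.realize (fun _ => one) = f := by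
  obtain ⟨f, hf⟩ := f
  induction hf with
  | one => exact ⟨.var 0, rfl⟩
  | zero => exact ⟨.func (L := LL) (l := 0) Fn.zero ![], rfl⟩
  | neg _ ih =>
    obtain ⟨p, hp⟩ := ih
    refine ⟨.func (L := LL) (l := 1) Fn.neg ![p], ?_⟩
    show op Fn.neg (fun i => (![p] i).realize _) = _
    apply Subtype.ext
    show (fun x => -((![p] 0).realize (fun _ => one) : H).1 x) = _
    rw [show ![p] 0 = p from rfl, hp]
  | add _ _ ih1 ih2 =>
    obtain ⟨p, hp⟩ := ih1
    obtain ⟨q, hq⟩ := ih2
    refine ⟨.func (L := LL) (l := 2) Fn.add ![p, q], ?_⟩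
    apply Subtype.ext
    show (fun x => ((![p, q] 0).realize (fun _ => one) : H).1 x +
      ((![p, q] 1).realize (fun _ => one) : H).1 x) = _
    rw [show ![p, q] 0 = p from rfl, show ![p, q] 1 = q from rfl, hp, hq]
  | eps _ ih =>
    obtain ⟨p, hp⟩ := ih
    refine ⟨.func (L := LL) (l := 1) Fn.eps ![p], ?_⟩
    apply Subtype.ext
    show (fun x => epsA (((![p] 0).realize (fun _ => one) : H).1 x)) = _
    rw [show ![p] 0 = p from rfl, hp]
  | t i _ ih =>
    obtain ⟨p, hp⟩ := ih
    refine ⟨.func (L := LL) (l := 1) (Fn.t i) ![p], ?_⟩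
    apply Subtype.ext
    show (fun x => if x i = true then (((![p] 0).realize (fun _ => one) : H).1 x) else 0) = _
    rw [show ![p] 0 = p from rfl, hp]

/-- the identities of `H` -/
def ids : Set (LL.Term ℕ × LL.Term ℕ) := {e | ∀ v : ℕ → H, e.1.realize v = e.2.realize v}

lemma identity_of_eq (p q : LL.Term (Fin 1))
    (h : p.realize (fun _ => one) = q.realize (fun _ => one)) {B : Type} [LL.Structure B]
    (hB : InVariety LL ids B) (c : B) : p.realize (fun _ => c) = q.realize (fun _ => c) := by
  have h1 : (p.relabel (fun _ => 0), q.relabel (fun _ => 0)) ∈ ids := by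
    intro v
    simp only [Term.realize_relabel]
    have e : ∀ r : LL.Term (Fin 1), r.realize (v ∘ fun _ => 0) =
        mulH (r.realize (fun _ => one)) (v 0) := by
      intro r
      rw [← realize_mul]
      congr 1
      funext _
      exact (mul_one' _).symm
    rw [e, e, h]
  have h2 := hB _ h1 (fun _ => c)
  simp only [Term.realize_relabel] at h2
  exact h2

theorem free_H : IsFGFree LL ids H := by
  refine ⟨fun e he v => he v, 1, fun _ => one, ?_⟩
  intro B _ hB c
  choose T hT using exists_term
  have hc : ∀ c' : Fin 1 → B, c' = fun _ => c' 0 := by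
    intro c'; funext i; rw [Subsingleton.elim i 0]
  let g : H →[LL] B :=
    { toFun := fun f => (T f).realize (fun _ => c 0)
      map_fun' := by
        intro n F v
        show (T (Structure.funMap F v)).realize (fun _ => c 0) = Structure.funMap F (fun i => (T (v i)).realize _)
        have : (T (Structure.funMap F v)).realize (fun _ => one) =
            (Term.func F (fun i => T (v i))).realize (fun _ => one) := by
          rw [hT]
          show _ = Structure.funMap F (fun i => (T (v i)).realize (fun _ => one))
          simp only [hT]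
        exact identity_of_eq _ _ this hB (c 0)
      map_rel' := by
        intro n r
        exact nomatch r }
  refine ⟨g, ?_, ?_⟩
  · intro i
    show (T one).realize (fun _ => c 0) = c i
    have : (T one).realize (fun _ => one) =
        (Term.var (L := LL) (0 : Fin 1)).realize (fun _ => one) := by
      rw [hT]; rfl
    rw [identity_of_eq _ _ this hB (c 0), Subsingleton.elim i 0]
    rfl
  · intro g' hg'
    apply DFunLike.ext
    intro f
    have h1 : g' ((T f).realize (fun _ => one)) = (T f).realize (g' ∘ fun _ => one) :=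
      (HomClass.realize_term g').symm
    rw [hT] at h1
    show g' f = (T f).realize (fun _ => c 0)
    rw [h1]
    congr 1
    funext i
    exact (hg' i).trans (by rw [Subsingleton.elim i 0])



/-! ### The local automorphisms -/

/-- `f` with the `j`-th coordinate of the argument frozen to `b` -/
def frz (j : ℕ) (b : Bool) (f : X → A) : X → A := fun x => f (Function.update x j b)

lemma gen_frz (j : ℕ) (b : Bool) {f : X → A} (hf : Gen f) : Gen (frz j b f) := by
  induction hf with
  | one => exact Gen.one
  | zero => exact Gen.zero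
  | neg _ ih => exact ih.neg
  | add _ _ ih1 ih2 => exact ih1.add ih2
  | eps _ ih => exact ih.eps
  | @t i f _ ih =>
    by_cases hij : i = j
    · subst hij
      have : frz i b (fun x => if x i = true then f x else 0) =
          if b = true then frz i b f else fun _ => 0 := by
        funext x
        simp only [frz, Function.update_self]
        split <;> rfl
      rw [this]
      split
      · exact ih
      · exact Gen.zero
    · have : frz j b (fun x => if x i = true then f x else 0) =
          fun x => if x i = true then frz j b f x else 0 := by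
        funext x
        simp only [frz, Function.update_of_ne hij]
      rw [this]
      exact ih.t i

lemma gen_nsmul (n : ℕ) {f : X → A} (hf : Gen f) : Gen (fun x => n • f x) := by
  induction n with
  | zero => simpa using Gen.zero
  | succ n ih =>
    have : (fun x => (n + 1) • f x) = fun x => n • f x + f x := by
      funext x; rw [succ_nsmul]
    rw [this]; exact ih.add hf

lemma gen_zsmul (n : ℤ) {f : X → A} (hf : Gen f) : Gen (fun x => n • f x) := by
  obtain ⟨m, rfl | rfl⟩ := n.eq_nat_or_neg
  · simpa using gen_nsmul m hf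
  · simpa using (gen_nsmul m hf).neg

/-- the action of an integer matrix on the two halves of the Cantor space
given by the `j`-th coordinate -/
def mat (j : ℕ) (a b c d : ℤ) (f : X → A) : X → A := fun x =>
  if x j = true then c • frz j false f x + d • frz j true f x
  else a • frz j false f x + b • frz j true f x

lemma gen_mat (j : ℕ) (a b c d : ℤ) {f : X → A} (hf : Gen f) : Gen (mat j a b c d f) := by
  have h0 := gen_frz j false hf
  have h1 := gen_frz j true hf
  have e1 := (gen_zsmul c h0).add (gen_zsmul d h1)
  have e0 := (gen_zsmul a h0).add (gen_zsmul b h1)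
  have : mat j a b c d f = fun x =>
      (if x j = true then c • frz j false f x + d • frz j true f x else 0) +
      ((a • frz j false f x + b • frz j true f x) +
      -(if x j = true then a • frz j false f x + b • frz j true f x else 0)) := by
    funext x
    simp only [mat]
    split
    · abel
    · abel
  rw [this]
  exact (e1.t j).add (e0.add (e0.t j).neg)

lemma frz_mat (j : ℕ) (e : Bool) (a b c d : ℤ) (f : X → A) (x : X) :
    frz j e (mat j a b c d f) x =
      if e = true then c • frz j false f x + d • frz j true f x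
      else a • frz j false f x + b • frz j true f x := by
  simp only [frz, mat, Function.update_self, Function.update_idem]

lemma frz_same (j : ℕ) (e : Bool) (f : X → A) (x : X) (h : x j = e) : frz j e f x = f x := by
  simp only [frz]
  rw [← h, Function.update_eq_self]

lemma mat_inv1 (j : ℕ) (f : X → A) : mat j 2 1 5 3 (mat j 3 (-1) (-5) 2 f) = f := by
  funext x
  rw [mat]
  simp only [frz_mat]
  split
  · rename_i h
    rw [← frz_same j true f x h]
    simp only [if_true, Bool.false_eq_true, if_false]
    module
  · rename_i h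
    rw [← frz_same j false f x (by simpa using h)]
    simp only [if_true, Bool.false_eq_true, if_false]
    module

lemma mat_inv2 (j : ℕ) (f : X → A) : mat j 3 (-1) (-5) 2 (mat j 2 1 5 3 f) = f := by
  funext x
  rw [mat]
  simp only [frz_mat]
  split
  · rename_i h
    rw [← frz_same j true f x h]
    simp only [if_true, Bool.false_eq_true, if_false]
    module
  · rename_i h
    rw [← frz_same j false f x (by simpa using h)]
    simp only [if_true, Bool.false_eq_true, if_false]
    module

/-- the permutation `α_j` of `H` -/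
def al (j : ℕ) : H ≃ H where
  toFun f := ⟨mat j 3 (-1) (-5) 2 f.1, gen_mat _ _ _ _ _ f.2⟩
  invFun f := ⟨mat j 2 1 5 3 f.1, gen_mat _ _ _ _ _ f.2⟩
  left_inv f := Subtype.ext (mat_inv1 j f.1)
  right_inv f := Subtype.ext (mat_inv2 j f.1)

lemma epsA_lin (a b : ℤ) (p q : A) : epsA (a • p + b • q) = a • epsA p + b • epsA q := by
  ext <;> simp [epsA]

lemma op_al {n : ℕ} (F : Fn n) : ∃ N, ∀ j, N ≤ j → ∀ v : Fin n → H,
    op F (fun i => al j (v i)) = al j (op F v) := by
  cases F with
  | zero =>
    refine ⟨0, fun j _ v => Subtype.ext ?_⟩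
    funext x
    simp [op, al, mat, frz]
  | neg =>
    refine ⟨0, fun j _ v => Subtype.ext ?_⟩
    funext x
    simp only [op, al, mat, frz, Equiv.coe_fn_mk]
    split <;> module
  | eps =>
    refine ⟨0, fun j _ v => Subtype.ext ?_⟩
    funext x
    simp only [op, al, mat, frz, Equiv.coe_fn_mk]
    split <;> simp only [epsA_lin]
  | t i =>
    refine ⟨i + 1, fun j hj v => Subtype.ext ?_⟩
    have hij : i ≠ j := by omega
    funext x
    simp only [op, al, mat, frz, Equiv.coe_fn_mk, Function.update_of_ne hij]
    by_cases h1 : x i = true <;> by_cases h2 : x j = true <;> simp [h1, h2]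
  | add =>
    refine ⟨0, fun j _ v => Subtype.ext ?_⟩
    funext x
    simp only [op, al, mat, frz, Equiv.coe_fn_mk]
    split <;> module

lemma term_al {α : Type} (p : LL.Term α) : ∃ N, ∀ j, N ≤ j → ∀ v : α → H,
    p.realize (al j ∘ v) = al j (p.realize v) := by
  induction p with
  | var a => exact ⟨0, fun _ _ _ => rfl⟩
  | @func n F ts ih =>
    choose N hN using ih
    obtain ⟨M, hM⟩ := op_al F
    refine ⟨max M (Finset.univ.sup N), fun j hj v => ?_⟩
    show op F (fun i => (ts i).realize (al j ∘ v)) = al j (op F (fun i => (ts i).realize v))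
    rw [← hM j (le_trans (le_max_left _ _) hj)]
    congr 1
    funext i
    exact hN i j (le_trans (le_trans (Finset.le_sup (Finset.mem_univ i)) (le_max_right _ _)) hj) v

lemma formula_al {α : Type} {m : ℕ} (φ : LL.BoundedFormula α m) : ∃ N, ∀ j, N ≤ j →
    ∀ (v : α → H) (xs : Fin m → H), φ.Realize (al j ∘ v) (al j ∘ xs) ↔ φ.Realize v xs := by
  induction φ with
  | falsum => exact ⟨0, fun _ _ _ _ => Iff.rfl⟩
  | @equal m t₁ t₂ =>
    obtain ⟨N₁, h₁⟩ := term_al t₁
    obtain ⟨N₂, h₂⟩ := term_al t₂
    refine ⟨max N₁ N₂, fun j hj v xs => ?_⟩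
    show t₁.realize (Sum.elim (al j ∘ v) (al j ∘ xs)) = t₂.realize (Sum.elim (al j ∘ v) (al j ∘ xs))
      ↔ t₁.realize (Sum.elim v xs) = t₂.realize (Sum.elim v xs)
    rw [← Sum.comp_elim, h₁ j (le_trans (le_max_left _ _) hj),
      h₂ j (le_trans (le_max_right _ _) hj)]
    exact (al j).injective.eq_iff
  | rel R _ => exact nomatch R
  | imp _ _ ih₁ ih₂ =>
    obtain ⟨N₁, h₁⟩ := ih₁
    obtain ⟨N₂, h₂⟩ := ih₂
    refine ⟨max N₁ N₂, fun j hj v xs => ?_⟩
    simp only [BoundedFormula.realize_imp]
    rw [h₁ j (le_trans (le_max_left _ _) hj), h₂ j (le_trans (le_max_right _ _) hj)]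
  | all _ ih =>
    obtain ⟨N, h⟩ := ih
    refine ⟨N, fun j hj v xs => ?_⟩
    simp only [BoundedFormula.realize_all]
    constructor
    · intro H1 a
      have := H1 (al j a)
      rw [← Fin.comp_snoc, h j hj] at this
      exact this
    · intro H1 a
      obtain ⟨b, rfl⟩ := (al j).surjective a
      rw [← Fin.comp_snoc, h j hj]
      exact H1 b

/-- `ε` times the generator -/
def e₁ : H := op Fn.eps (fun _ => one)

/-- `2ε` times the generator -/
def e₂ : H := op Fn.add (fun _ => e₁)

lemma al_e₁ (j : ℕ) : al j e₁ = e₂ := by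
  apply Subtype.ext
  funext x
  show mat j 3 (-1) (-5) 2 (fun _ => epsA (1, 0)) x = epsA (1, 0) + epsA (1, 0)
  simp only [mat, frz]
  split
  · ext
    · simp [epsA]
    · simp [epsA]; decide
  · ext
    · simp [epsA]
    · simp [epsA]; decide

lemma sameType : SameType LL (fun _ : Fin 1 => e₁) (fun _ : Fin 1 => e₂) := by
  intro φ
  obtain ⟨N, h⟩ := formula_al φ
  have := h N le_rfl (fun _ => e₁) default
  rw [show (al N ∘ fun _ : Fin 1 => e₁) = fun _ => e₂ from funext fun _ => al_e₁ N] at this
  rw [show (al N ∘ (default : Fin 0 → H)) = default from Subsingleton.elim _ _] at this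
  exact this.symm

lemma sigma_mul (σ : H ≃[LL] H) (f : H) : σ f = mulH f (σ one) := by
  obtain ⟨p, rfl⟩ := exists_term f
  have h1 : σ (p.realize (fun _ => one)) = p.realize (σ ∘ fun _ => one) :=
    (HomClass.realize_term σ).symm
  rw [h1, ← realize_mul]
  congr 1
  funext _
  exact (mul_one' _).symm

lemma not_conj (σ : H ≃[LL] H) : σ e₁ ≠ e₂ := by
  intro h
  obtain ⟨f, hf⟩ := σ.surjective one
  rw [sigma_mul] at hf h
  let x : X := fun _ => false
  have h1 := congrFun (congrArg Subtype.val hf) x
  have h2 := congrFun (congrArg Subtype.val h) x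
  have h3 : (f.1 x).1 * ((σ one).1 x).1 = 1 := congrArg Prod.fst h1
  have h4 : ((0 : ℤ) : ZMod 5) * ((σ one).1 x).2 + (((σ one).1 x).1 : ZMod 5) * ((1 : ℤ) : ZMod 5)
      = ((1 : ℤ) : ZMod 5) + ((1 : ℤ) : ZMod 5) := congrArg Prod.snd h2
  rw [mul_comm] at h3
  rcases Int.isUnit_iff.mp (IsUnit.of_mul_eq_one _ h3) with h5 | h5
  · rw [h5] at h4
    simp at h4
    revert h4
    decide
  · rw [h5] at h4
    simp at h4
    revert h4
    decide

theorem result : ∃ (L : FirstOrder.Language.{0, 0}) (_ : ∀ n, IsEmpty (L.Relations n))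
    (Θ : Set (L.Term ℕ × L.Term ℕ)) (H₁ H₂ : Type) (_ : L.Structure H₁) (_ : L.Structure H₂),
    IsFGFree L Θ H₁ ∧ IsFGFree L Θ H₂ ∧ Isotypic L H₁ H₂ ∧
    ∃ (n : ℕ) (μ : Fin n → H₁) (ν : Fin n → H₂), SameType L μ ν ∧
      ¬ ∃ σ : H₁ ≃[L] H₂, ∀ i, σ (μ i) = ν i :=
  ⟨LL, fun _ => ⟨fun r => nomatch r⟩, ids, H, H, inferInstance, inferInstance, free_H, free_H,
    fun _ => ⟨fun μ => ⟨μ, fun _ => Iff.rfl⟩, fun ν => ⟨ν, fun _ => Iff.rfl⟩⟩,
    1, fun _ => e₁, fun _ => e₂, sameType, fun ⟨σ, h⟩ => not_conj σ (h 0)⟩

end Pool.Agent.Results.MP_9f131e_lc.NotConjugate
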